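import Mathlib

/-! The random walk loop soup on the three-dimensional lattice. -/

open MeasureTheory ProbabilityTheory
open scoped NNReal

namespace Pool.Agent.MP_3a8451_pr

/-- Vertices of the lattice. -/
abbrev V := Fin 3 → ℤ

/-- Nearest neighbours. -/
def Adj (x y : V) : Prop := ∑ c, |x c - y c| = 1

/-- A loop: a rotation class of lists of length at least two in which consecutive entries, and the
last and first entries, are neighbours. -/
def Loop := {c : Cycle V // 2 ≤ c.length ∧ c.Chain Adj}

/-- The loop measure: the sum of `(1/n) (1/6)^n` over the based loops in the class. -/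
noncomputable def mu (ℓ : Loop) : ℝ≥0 :=
  ∑ l ∈ ℓ.1.lists.toFinset, 1 / (l.length : ℝ≥0) * (1 / 6) ^ l.length

/-- The Poisson point process of loops of intensity `α * mu`: independent Poisson multiplicities. -/
noncomputable def soup (α : ℝ≥0) : Measure (Loop → ℕ) :=
  Measure.infinitePi fun ℓ => poissonMeasure (α * mu ℓ)

/-- Some loop of the configuration visits both points. -/
def Link (N : Loop → ℕ) (x y : V) : Prop := ∃ ℓ : Loop, N ℓ ≠ 0 ∧ x ∈ ℓ.1 ∧ y ∈ ℓ.1

/-- The one-arm probability: the origin is joined by a chain of loops to a point of sup norm `n`. -/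
noncomputable def arm (α : ℝ≥0) (n : ℕ) : ℝ :=
  (soup α).real {N | ∃ y : V, (Finset.univ.sup fun c => (y c).natAbs) = n ∧
    Relation.ReflTransGen (Link N) 0 y}

end Pool.Agent.MP_3a8451_pr
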